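import Mathlib

namespace Pool.Agent.MP_d395f7_lc.H36

/-- Truth of a formula of the language of rings in the polynomial ring `ℂ[t]`, the symbols
`0, 1, +, -, ·` being read as the ring operations. -/
def Holds {α : Type} (φ : FirstOrder.Language.ring.Formula α) (v : α → Polynomial ℂ) : Prop :=
  @FirstOrder.Language.Formula.Realize FirstOrder.Language.ring (Polynomial ℂ)
    (FirstOrder.Ring.compatibleRingOfRing (Polynomial ℂ)).toStructure α φ v

end Pool.Agent.MP_d395f7_lc.H36
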