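import Mathlib

/-! Transfer of polynomial tuples from a field extension of a countable subfield of `ℂ`
back to `ℂ`. -/

namespace Pool.Agent.MP_d395f7_lc.H36

open Polynomial Cardinal

theorem exists_indep (k : Subfield ℂ) [Countable k] :
    ∃ c : ℕ → ℂ, AlgebraicIndependent k c := by
  obtain ⟨s, hs⟩ := exists_isTranscendenceBasis k ℂ
  have h := IsAlgClosed.cardinal_le_max_transcendence_basis' (R := k) _ hs
  have hinf : Infinite s := by
    by_contra hfin
    rw [not_infinite_iff_finite] at hfin
    have h1 : Cardinal.mk k ≤ ℵ₀ := Cardinal.mk_le_aleph0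
    have h2 : Cardinal.mk s ≤ ℵ₀ := Cardinal.mk_le_aleph0
    have h3 : Cardinal.mk ℂ ≤ ℵ₀ := h.trans (max_le (max_le h1 h2) le_rfl)
    rw [Cardinal.mk_complex] at h3
    exact absurd h3 (not_le.2 Cardinal.aleph0_lt_continuum)
  exact ⟨_, hs.1.comp (Infinite.natEmbedding s) (Infinite.natEmbedding s).injective⟩

theorem exists_algHom (k : Subfield ℂ) [Countable k] (E : Type) [Field E] [Algebra k E]
    [Countable E] : Nonempty (E →ₐ[k] ℂ) := by
  obtain ⟨c, hc⟩ := exists_indep k
  obtain ⟨s, hs⟩ := exists_isTranscendenceBasis k E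
  obtain ⟨e, he⟩ := Countable.exists_injective_nat s
  have hce := hc.comp e he
  let f : Algebra.adjoin k (Set.range (Subtype.val : s → E)) →ₐ[k] ℂ :=
    (MvPolynomial.aeval (c ∘ e)).comp hs.1.aevalEquiv.symm.toAlgHom
  have hf : Function.Injective f := by
    have h1 : Function.Injective (MvPolynomial.aeval (c ∘ e) : MvPolynomial s k →ₐ[k] ℂ) := hce
    exact h1.comp hs.1.aevalEquiv.symm.injective
  let : Algebra (Algebra.adjoin k (Set.range (Subtype.val : s → E))) ℂ := f.toRingHom.toAlgebra
  have : IsScalarTower k (Algebra.adjoin k (Set.range (Subtype.val : s → E))) ℂ :=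
    IsScalarTower.of_algebraMap_eq fun a => (f.commutes a).symm
  have : FaithfulSMul (Algebra.adjoin k (Set.range (Subtype.val : s → E))) ℂ :=
    (faithfulSMul_iff_algebraMap_injective _ _).2 hf
  have := hs.isAlgebraic
  exact ⟨(IsAlgClosed.lift (R := Algebra.adjoin k (Set.range (Subtype.val : s → E)))
    (S := E) (M := ℂ)).restrictScalars k⟩

theorem eval₂_map {k E K : Type} [Field k] [Field E] [Field K] [Algebra k E] [Algebra k K]
    (φ : E →ₐ[k] K) {ι : Type} (Z : ι → E[X]) (Q : MvPolynomial ι k[X]) :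
    MvPolynomial.eval₂ (mapRingHom (algebraMap k K)) (fun i => (Z i).map φ.toRingHom) Q =
      (MvPolynomial.eval₂ (mapRingHom (algebraMap k E)) Z Q).map φ.toRingHom := by
  have h := MvPolynomial.eval₂_comp_left (mapRingHom φ.toRingHom)
    (mapRingHom (algebraMap k E)) Z Q
  have h2 : (mapRingHom φ.toRingHom).comp (mapRingHom (algebraMap k E)) =
      mapRingHom (algebraMap k K) := by
    rw [Polynomial.mapRingHom_comp]
    congr 1
    ext a
    simp
  rw [h2] at h
  exact h.symm

theorem eval₂_map_eq_zero {k E K : Type} [Field k] [Field E] [Field K] [Algebra k E]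
    [Algebra k K] (φ : E →ₐ[k] K) {ι : Type} (Z : ι → E[X]) (Q : MvPolynomial ι k[X]) :
    MvPolynomial.eval₂ (mapRingHom (algebraMap k K)) (fun i => (Z i).map φ.toRingHom) Q = 0 ↔
      MvPolynomial.eval₂ (mapRingHom (algebraMap k E)) Z Q = 0 := by
  rw [eval₂_map, Polynomial.map_eq_zero_iff φ.toRingHom.injective]

/-- a finite tuple of polynomials comes from the field generated by its coefficients -/
theorem exists_descend (k K : Type) [Field k] [Field K] [Algebra k K] {n : ℕ}
    (Y : Fin n → K[X]) : ∃ (S : Finset K) (Z : Fin n → (IntermediateField.adjoin k (S : Set K))[X]),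
      ∀ i, (Z i).map (IntermediateField.adjoin k (S : Set K)).val.toRingHom = Y i := by
  classical
  refine ⟨Finset.univ.biUnion fun i => (Y i).coeffs, ?_⟩
  have h : ∀ i, Y i ∈ Polynomial.lifts (IntermediateField.adjoin k
      ((Finset.univ.biUnion fun i => (Y i).coeffs : Finset K) : Set K)).val.toRingHom := by
    intro i
    rw [Polynomial.lifts_iff_coeff_lifts]
    intro j
    by_cases hj : (Y i).coeff j = 0
    · exact ⟨0, by rw [hj]; exact map_zero _⟩
    · refine ⟨⟨(Y i).coeff j, IntermediateField.subset_adjoin _ _ ?_⟩, rfl⟩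
      simp only [Finset.coe_biUnion, Finset.coe_univ, Set.mem_univ, Set.iUnion_true,
        Set.mem_iUnion, Finset.mem_coe]
      exact ⟨i, Polynomial.coeff_mem_coeffs hj⟩
  choose Z hZ using fun i => (Polynomial.mem_lifts _).1 (h i)
  exact ⟨Z, hZ⟩

theorem emb (k : Subfield ℂ) [Countable k] (K : Type) [Field K] [Algebra k K] {n : ℕ}
    (Y : Fin n → K[X]) : ∃ x' : Fin n → ℂ[X], (∀ i, (x' i).natDegree = (Y i).natDegree) ∧
      ∀ Q : MvPolynomial (Fin n) k[X],
        MvPolynomial.eval₂ (mapRingHom (algebraMap k K)) Y Q = 0 ↔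
        MvPolynomial.eval₂ (mapRingHom (algebraMap k ℂ)) x' Q = 0 := by
  obtain ⟨S, Z, hZ⟩ := exists_descend k K Y
  have : Countable (IntermediateField.adjoin k (S : Set K)) := by
    rw [← Cardinal.mk_le_aleph0_iff]
    refine (IntermediateField.cardinalMk_adjoin_le k (S : Set K)).trans ?_
    exact max_le (max_le Cardinal.mk_le_aleph0 Cardinal.mk_le_aleph0) le_rfl
  obtain ⟨φ⟩ := exists_algHom k (IntermediateField.adjoin k (S : Set K))
  refine ⟨fun i => (Z i).map φ.toRingHom, fun i => ?_, fun Q => ?_⟩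
  · rw [← hZ i, Polynomial.natDegree_map, Polynomial.natDegree_map]
  · rw [eval₂_map_eq_zero, ← eval₂_map_eq_zero (IntermediateField.adjoin k (S : Set K)).val,
      funext hZ]

end Pool.Agent.MP_d395f7_lc.H36
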