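import Mathlib
import Pool.Agent.MP_d395f7_lc.H36.Emb
import Pool.Agent.MP_d395f7_lc.H36.Defs
import Pool.Agent.MP_d395f7_lc.H9.Spec

/-! From the algebraic core statement to the first-order statement. -/

namespace Pool.Agent.MP_d395f7_lc.H36

open Polynomial FirstOrder FirstOrder.Language FirstOrder.Ring

section Logic

variable {R : Type} [CommRing R]

/-- two tuples satisfy the same polynomial relations over the integers -/
def SameRel {ι : Type} (u u' : ι → R) : Prop :=
  ∀ p : MvPolynomial ι ℤ, MvPolynomial.eval₂Hom (Int.castRingHom R) u p = 0 ↔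
    MvPolynomial.eval₂Hom (Int.castRingHom R) u' p = 0

theorem SameRel.comp {ι κ : Type} {u u' : ι → R} (h : SameRel u u') (r : κ → ι) :
    SameRel (u ∘ r) (u' ∘ r) := fun p => by
  rw [← MvPolynomial.eval₂Hom_rename, ← MvPolynomial.eval₂Hom_rename]
  exact h _

theorem exists_poly [CompatibleRing R] {ι : Type} (t : Language.ring.Term ι) :
    ∃ p : MvPolynomial ι ℤ, ∀ u : ι → R,
      t.realize u = MvPolynomial.eval₂Hom (Int.castRingHom R) u p := by
  induction t with
  | var i => exact ⟨MvPolynomial.X i, fun u => by simp⟩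
  | func F ts ih =>
    choose p hp using ih
    cases F with
    | add => exact ⟨p 0 + p 1, fun u => by
        rw [Term.realize, map_add, ← hp, ← hp]
        exact CompatibleRing.funMap_add _⟩
    | mul => exact ⟨p 0 * p 1, fun u => by
        rw [Term.realize, map_mul, ← hp, ← hp]
        exact CompatibleRing.funMap_mul _⟩
    | neg => exact ⟨-p 0, fun u => by
        rw [Term.realize, map_neg, ← hp]
        exact CompatibleRing.funMap_neg _⟩
    | zero => exact ⟨0, fun u => by
        rw [Term.realize, map_zero]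
        exact CompatibleRing.funMap_zero _⟩
    | one => exact ⟨1, fun u => by
        rw [Term.realize, map_one]
        exact CompatibleRing.funMap_one _⟩

theorem qf_iff [CompatibleRing R] {α : Type} {n : ℕ} {φ : Language.ring.BoundedFormula α n}
    (h : φ.IsQF) {v v' : α → R} {xs xs' : Fin n → R}
    (H : SameRel (Sum.elim v xs) (Sum.elim v' xs')) : φ.Realize v xs ↔ φ.Realize v' xs' := by
  induction h with
  | falsum => exact Iff.rfl
  | of_isAtomic hA =>
    cases hA with
    | equal t₁ t₂ =>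
      obtain ⟨p₁, h₁⟩ := exists_poly (R := R) t₁
      obtain ⟨p₂, h₂⟩ := exists_poly (R := R) t₂
      rw [BoundedFormula.realize_bdEqual, BoundedFormula.realize_bdEqual, h₁, h₁, h₂, h₂,
        ← sub_eq_zero, ← map_sub, H, map_sub, sub_eq_zero]
    | rel S ts => exact S.elim
  | imp _ _ ih₁ ih₂ =>
    rw [BoundedFormula.realize_imp, BoundedFormula.realize_imp, ih₁, ih₂]

theorem ex_transfer [CompatibleRing R] {α : Type} {n : ℕ}
    {φ : Language.ring.BoundedFormula α n} (h : φ.IsExistential) :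
    ∃ m : ℕ, ∀ (v : α → R) (xs : Fin n → R), φ.Realize v xs → ∃ w : Fin m → R,
      ∀ (v' : α → R) (xs' : Fin n → R) (w' : Fin m → R),
        SameRel (Sum.elim (Sum.elim v xs) w) (Sum.elim (Sum.elim v' xs') w') →
        φ.Realize v' xs' := by
  induction h with
  | of_isQF h =>
    exact ⟨0, fun v xs hv => ⟨Fin.elim0, fun v' xs' w' H => (qf_iff h (H.comp Sum.inl)).1 hv⟩⟩
  | @ex n φ _ ih =>
    obtain ⟨m, hm⟩ := ih
    refine ⟨m + 1, fun v xs hv => ?_⟩
    obtain ⟨a, ha⟩ := BoundedFormula.realize_ex.1 hv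
    obtain ⟨w, hw⟩ := hm v _ ha
    refine ⟨Fin.cons a w, fun v' xs' w' H => BoundedFormula.realize_ex.2 ⟨w' 0, ?_⟩⟩
    refine hw v' _ (fun i => w' i.succ) ?_
    let r : (α ⊕ Fin (n + 1)) ⊕ Fin m → (α ⊕ Fin n) ⊕ Fin (m + 1) :=
      Sum.elim (Sum.elim (fun i => Sum.inl (Sum.inl i))
        (Fin.snoc (α := fun _ => (α ⊕ Fin n) ⊕ Fin (m + 1)) (fun i => Sum.inl (Sum.inr i))
          (Sum.inr 0))) fun i => Sum.inr i.succ
    have key : ∀ (y : α → R) (ys : Fin n → R) (z : Fin (m + 1) → R),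
        Sum.elim (Sum.elim y ys) z ∘ r =
          Sum.elim (Sum.elim y (Fin.snoc ys (z 0))) fun i => z i.succ := by
      intro y ys z
      funext i
      rcases i with (i | i) | i
      · rfl
      · refine Fin.lastCases ?_ (fun j => ?_) i <;> simp [r]
      · rfl
    have H2 := H.comp r
    rw [key, key] at H2
    simpa using H2

end Logic

theorem exists_subfield {m : ℕ} (a : Fin m → ℂ[X]) : ∃ (k : Subfield ℂ) (_ : Countable k)
    (b : Fin m → k[X]), ∀ i, (b i).map (algebraMap k ℂ) = a i := by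
  obtain ⟨S, Z, hZ⟩ := exists_descend ℚ ℂ a
  refine ⟨(IntermediateField.adjoin ℚ (S : Set ℂ)).toSubfield, ?_, Z, hZ⟩
  change Countable (IntermediateField.adjoin ℚ (S : Set ℂ))
  rw [← Cardinal.mk_le_aleph0_iff]
  refine (IntermediateField.cardinalMk_adjoin_le ℚ (S : Set ℂ)).trans ?_
  exact max_le (max_le Cardinal.mk_le_aleph0 Cardinal.mk_le_aleph0) le_rfl

theorem of_main (H : H9.MainS) [CompatibleRing ℂ[X]] :
    ¬ ∃ (m : ℕ) (a : Fin m → ℂ[X]) (φ : Language.ring.Formula (Fin 2 ⊕ Fin m)),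
      φ.IsExistential ∧
        ∀ f g : ℂ[X], f.degree = g.degree ↔ φ.Realize (Sum.elim ![f, g] a) := by
  rintro ⟨m, a, φ, hφ, hR⟩
  obtain ⟨n, hn⟩ := ex_transfer (R := ℂ[X]) hφ
  obtain ⟨k, _, b, hb⟩ := exists_subfield a
  obtain ⟨c, hc⟩ := exists_indep k
  set d := n + 2 with hd
  let f : ℂ[X] := ∑ j ∈ Finset.range (d + 1), monomial j (c j)
  have hf : ∀ j, j ≤ d → f.coeff j = c j := by
    intro j hj
    simp only [f, finsetSum_coeff, coeff_monomial]
    rw [Finset.sum_ite_eq']
    simp [Nat.lt_succ_iff.2 hj]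
  have hfd : f.natDegree ≤ d := by
    refine natDegree_sum_le_of_forall_le _ _ fun j hj => ?_
    exact (natDegree_monomial_le _).trans (Nat.lt_succ_iff.1 (Finset.mem_range.1 hj))
  have hdeg : f.degree = (X ^ d : ℂ[X]).degree := by
    rw [degree_X_pow]
    refine degree_eq_of_le_of_coeff_ne_zero (degree_le_of_natDegree_le hfd) ?_
    rw [hf d le_rfl]
    exact hc.ne_zero d
  obtain ⟨w, hw⟩ := hn (Sum.elim ![f, X ^ d] a) Fin.elim0
    ((Formula.boundedFormula_realize_eq_realize _ _ _).2 ((hR f (X ^ d)).1 hdeg))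
  have hi : AlgebraicIndependent k
      (fun j : Fin (d + 1) => ((Fin.cons f w : Fin (n + 1) → ℂ[X]) 0).coeff j) := by
    have e : (fun j : Fin (d + 1) => ((Fin.cons f w : Fin (n + 1) → ℂ[X]) 0).coeff j) =
        c ∘ Fin.val := by
      funext j
      exact hf j (Nat.lt_succ_iff.1 j.2)
    rw [e]
    exact hc.comp _ Fin.val_injective
  obtain ⟨x', hx', hQ⟩ := H k (Fin (n + 1)) (Fin.cons f w) 0 d d (by simp [hd]) hi
  let s : ((Fin 2 ⊕ Fin m) ⊕ Fin 0) ⊕ Fin n → MvPolynomial (Option (Fin (n + 1))) k :=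
    Sum.elim (Sum.elim (Sum.elim ![MvPolynomial.X (some 0), MvPolynomial.X none ^ d]
      fun i => aeval (MvPolynomial.X none) (b i)) Fin.elim0) fun i => MvPolynomial.X (some i.succ)
  have key : ∀ (y : Fin (n + 1) → ℂ[X]) (p : MvPolynomial (((Fin 2 ⊕ Fin m) ⊕ Fin 0) ⊕ Fin n) ℤ),
      MvPolynomial.eval₂Hom (Int.castRingHom ℂ[X])
        (Sum.elim (Sum.elim (Sum.elim ![y 0, X ^ d] a) Fin.elim0) fun i => y i.succ) p =
      MvPolynomial.aeval (H9.tup y) (MvPolynomial.eval₂Hom (Int.castRingHom _) s p) := by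
    intro y p
    have e : MvPolynomial.eval₂Hom (Int.castRingHom ℂ[X])
        (Sum.elim (Sum.elim (Sum.elim ![y 0, X ^ d] a) Fin.elim0) fun i => y i.succ) =
        (MvPolynomial.aeval (R := k) (H9.tup y)).toRingHom.comp
          (MvPolynomial.eval₂Hom (Int.castRingHom _) s) := by
      refine MvPolynomial.ringHom_ext' (RingHom.ext_int _ _) fun i => ?_
      rcases i with ((i | i) | i) | i
      · fin_cases i <;> simp [s, H9.tup]
      · have e2 := Polynomial.aeval_algHom_apply (MvPolynomial.aeval (R := k) (H9.tup y))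
          (MvPolynomial.X none) (b i)
        simp only [MvPolynomial.aeval_X, H9.tup, Option.elim_none] at e2
        rw [Polynomial.aeval_X_left_eq_map, hb] at e2
        simpa [s, H9.tup] using e2
      · exact i.elim0
      · simp [s, H9.tup]
    exact DFunLike.congr_fun e p
  have hreal := hw (Sum.elim ![x' 0, X ^ d] a) Fin.elim0 (fun i => x' i.succ) fun p => by
    have e := key (Fin.cons f w) p
    simp only [Fin.cons_zero, Fin.cons_succ] at e
    rw [key x' p, hQ, ← e]
  have h2 := natDegree_eq_of_degree_eq ((hR (x' 0) (X ^ d)).2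
    ((Formula.boundedFormula_realize_eq_realize _ _ _).1 hreal))
  rw [natDegree_X_pow] at h2
  omega

theorem wrap (H : H9.MainS) :
    ¬ ∃ (m : ℕ) (a : Fin m → ℂ[X]) (φ : Language.ring.Formula (Fin 2 ⊕ Fin m)),
      BoundedFormula.IsExistential φ ∧
        ∀ f g : ℂ[X], f.degree = g.degree ↔ Holds φ (Sum.elim ![f, g] a) :=
  @of_main H (compatibleRingOfRing ℂ[X])

end Pool.Agent.MP_d395f7_lc.H36
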